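import Mathlib

namespace Pool.Agent.Results.MP_1cbbe5_an.Unbounded

open Filter Topology

/-- `x` (with `x n` standing for `x_{n-2}`, `n ≥ 0`) is a solution of
`x_{n+1} = (β x_n + x_{n-1}) / x_{n-2}` with nonnegative initial values and positive
denominators; equivalently all terms are positive. -/
def IsSolution (β : ℝ) (x : ℕ → ℝ) : Prop :=
  (∀ n, 0 < x n) ∧ ∀ n, x (n + 3) = (β * x (n + 2) + x (n + 1)) / x n

/-- One step on triples of consecutive terms. -/
noncomputable def T (β : ℝ) (p : ℝ × ℝ × ℝ) : ℝ × ℝ × ℝ :=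
  (p.2.1, p.2.2, (β * p.2.2 + p.2.1) / p.1)

/-- The solution with given initial values. -/
noncomputable def sol (β a b c : ℝ) (n : ℕ) : ℝ := ((T β)^[n] (a, b, c)).1

lemma sol_isSolution {β a b c : ℝ} (hβ : 0 < β) (ha : 0 < a) (hb : 0 < b) (hc : 0 < c) :
    IsSolution β (sol β a b c) := by
  have h1 : ∀ n, 0 < ((T β)^[n] (a, b, c)).1 ∧ 0 < ((T β)^[n] (a, b, c)).2.1 ∧
      0 < ((T β)^[n] (a, b, c)).2.2 := by
    intro n
    induction n with
    | zero => exact ⟨ha, hb, hc⟩
    | succ n ih =>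
      rw [Function.iterate_succ_apply']
      obtain ⟨h1, h2, h3⟩ := ih
      refine ⟨h2, h3, ?_⟩
      unfold T
      positivity
  refine ⟨fun n => (h1 n).1, fun n => ?_⟩
  unfold sol
  rw [show n + 3 = (n + 2) + 1 from rfl, Function.iterate_succ_apply',
    show n + 2 = (n + 1) + 1 from rfl, Function.iterate_succ_apply', Function.iterate_succ_apply']
  rfl

/-- For every `β` with `0 < β < 1` the recursion has an unbounded solution; in particular there
are a parameter `β > 0` and admissible initial values for which the solution is unbounded. -/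
theorem result (β : ℝ) (hβ : 0 < β) (hβ1 : β < 1) :
    ∃ x : ℕ → ℝ, IsSolution β x ∧ ¬ BddAbove (Set.range x) := by
  obtain ⟨s, hs0, hs1, hsβ⟩ : ∃ s : ℝ, 0 < s ∧ s < 1 ∧ s * s = β := by
    refine ⟨√β, Real.sqrt_pos.mpr hβ, ?_, Real.mul_self_sqrt hβ.le⟩
    rw [Real.sqrt_lt' one_pos]; simpa using hβ1
  obtain ⟨q, hq⟩ : ∃ q : ℝ, q = (1 + s) / 2 := ⟨_, rfl⟩
  have hq1 : q < 1 := by linarith
  have hsq : s < q := by linarith
  have hq0 : 0 < q := by linarith
  have hqq : 0 < 1 - q ^ 2 := by nlinarith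
  obtain ⟨Z, hZ⟩ : ∃ Z : ℝ, Z = q ^ 2 * (β ^ 2 + q) / (β * ((q - s) * (1 - q ^ 2))) := ⟨_, rfl⟩
  have hqs : 0 < q - s := by linarith
  have hZ0 : 0 < Z := by rw [hZ]; positivity
  have hsol := sol_isSolution (β := β) (a := s) (b := Z) (c := s) hβ hs0 hZ0 hs0
  set x := sol β s Z s with hx
  refine ⟨x, hsol, ?_⟩
  obtain ⟨hpos, hrec⟩ := hsol
  have x0 : x 0 = s := rfl
  have x1 : x 1 = Z := rfl
  have x2 : x 2 = s := rfl
  -- the bounds
  obtain ⟨U, hU⟩ : ∃ U : ℕ → ℝ, ∀ k, U k = q - (q - s) * q ^ k := ⟨_, fun _ => rfl⟩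
  have hUs : ∀ k, s ≤ U k := by
    intro k
    have : q ^ k ≤ 1 := pow_le_one₀ hq0.le hq1.le
    rw [hU]; nlinarith
  have hUpos : ∀ k, 0 < U k := fun k => hs0.trans_le (hUs k)
  have hUq : ∀ k, U k ≤ q := by
    intro k
    have : 0 ≤ (q - s) * q ^ k := by positivity
    rw [hU]; linarith
  have hU2 : ∀ k, U (k + 2) - U k = (q - s) * (1 - q ^ 2) * q ^ k := by
    intro k; rw [hU, hU]; ring
  have hUmono : ∀ k, U k ≤ U (k + 2) := by
    intro k
    have := hU2 k
    have h2 : 0 ≤ (q - s) * (1 - q ^ 2) * q ^ k := by positivity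
    linarith
  have hprod : ∀ k, x (2 * k + 4) * x (2 * k) =
      β + x (2 * k + 2) * (β ^ 2 + x (2 * k)) / x (2 * k + 1) := by
    intro k
    have e1 := hrec (2 * k)
    have e2 := hrec (2 * k + 1)
    have p0 := hpos (2 * k)
    have p1 := hpos (2 * k + 1)
    rw [show 2 * k + 1 + 3 = 2 * k + 4 by ring, show 2 * k + 1 + 2 = 2 * k + 3 by ring,
      show 2 * k + 1 + 1 = 2 * k + 2 by ring, e1] at e2
    rw [e2]
    field_simp
    ring
  have main : ∀ k, (β / U k ≤ x (2 * k) ∧ x (2 * k) ≤ U k) ∧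
      (β / U (k + 1) ≤ x (2 * (k + 1)) ∧ x (2 * (k + 1)) ≤ U (k + 1)) ∧
      Z * (1 / q) ^ k ≤ x (2 * k + 1) := by
    intro k
    induction k with
    | zero =>
      refine ⟨⟨?_, ?_⟩, ⟨?_, ?_⟩, ?_⟩
      · rw [div_le_iff₀ (hUpos 0)]
        have := hUs 0
        simp only [mul_zero, x0]
        nlinarith
      · simpa [x0] using hUs 0
      · rw [div_le_iff₀ (hUpos _)]
        have := hUs 1
        simp only [zero_add, mul_one, x2]
        nlinarith
      · simpa [x2] using hUs 1
      · simp [x1]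
    | succ k ih =>
      obtain ⟨⟨a1, a2⟩, ⟨b1, b2⟩, c⟩ := ih
      have p0 := hpos (2 * k)
      have p1 := hpos (2 * k + 1)
      have p2 := hpos (2 * k + 2)
      have hXpos : 0 < Z * (1 / q) ^ k := by positivity
      refine ⟨⟨b1, b2⟩, ⟨?_, ?_⟩, ?_⟩
      · -- lower bound
        have e := hprod k
        have h1 : 0 ≤ x (2 * k + 2) * (β ^ 2 + x (2 * k)) / x (2 * k + 1) := by positivity
        have h2 : β ≤ x (2 * k + 4) * U k := by
          calc β ≤ x (2 * k + 4) * x (2 * k) := by rw [e]; linarith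
            _ ≤ x (2 * k + 4) * U k := mul_le_mul_of_nonneg_left a2 (hpos _).le
        have h3 : β / U (k + 2) ≤ β / U k :=
          div_le_div_of_nonneg_left hβ.le (hUpos k) (hUmono k)
        have h4 : β / U k ≤ x (2 * k + 4) := by rwa [div_le_iff₀ (hUpos k)]
        exact h3.trans h4
      · -- upper bound
        have e := hprod k
        have hb2 : x (2 * k + 2) ≤ q := b2.trans (hUq _)
        have ha2 : x (2 * k) ≤ q := a2.trans (hUq _)
        have h1 : x (2 * k + 2) * (β ^ 2 + x (2 * k)) / x (2 * k + 1) ≤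
            q * (β ^ 2 + q) / (Z * (1 / q) ^ k) := by
          apply div_le_div₀ (by positivity) _ hXpos c
          apply mul_le_mul hb2 (by linarith) (by positivity) hq0.le
        have h2 : q * (β ^ 2 + q) / (Z * (1 / q) ^ k) =
            β * ((q - s) * (1 - q ^ 2)) / q * q ^ k := by
          rw [hZ]
          field_simp
          rw [← mul_pow, one_div_mul_cancel hq0.ne', one_pow]
        -- lower bound of `x (2k)` by `β / q`
        have h3 : β / q ≤ x (2 * k) :=
          (div_le_div_of_nonneg_left hβ.le (hUpos k) (hUq k)).trans a1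
        have h4 : β ≤ x (2 * k) * U k := by rwa [div_le_iff₀ (hUpos k)] at a1
        have h5 : x (2 * k + 4) * x (2 * k) ≤ U (k + 2) * x (2 * k) := by
          rw [e]
          have h6 : U (k + 2) = U k + (q - s) * (1 - q ^ 2) * q ^ k := by linarith [hU2 k]
          rw [h6]
          have h7 : (q - s) * (1 - q ^ 2) * q ^ k * (β / q) ≤
              (q - s) * (1 - q ^ 2) * q ^ k * x (2 * k) :=
            mul_le_mul_of_nonneg_left h3 (by positivity)
          have h8 : (q - s) * (1 - q ^ 2) * q ^ k * (β / q) =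
              β * ((q - s) * (1 - q ^ 2)) / q * q ^ k := by ring
          calc β + x (2 * k + 2) * (β ^ 2 + x (2 * k)) / x (2 * k + 1)
              ≤ x (2 * k) * U k + (q - s) * (1 - q ^ 2) * q ^ k * x (2 * k) := by
                rw [h2] at h1; linarith
            _ = _ := by ring
        exact le_of_mul_le_mul_right h5 p0
      · -- growth
        have e1 := hrec (2 * k)
        rw [show 2 * (k + 1) + 1 = 2 * k + 3 by ring, e1, le_div_iff₀ p0]
        have ha2 : x (2 * k) ≤ q := a2.trans (hUq _)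
        calc Z * (1 / q) ^ (k + 1) * x (2 * k) ≤ Z * (1 / q) ^ (k + 1) * q :=
              mul_le_mul_of_nonneg_left ha2 (by positivity)
          _ = Z * (1 / q) ^ k := by rw [pow_succ]; field_simp
          _ ≤ x (2 * k + 1) := c
          _ ≤ β * x (2 * k + 2) + x (2 * k + 1) := by
              have : 0 ≤ β * x (2 * k + 2) := by positivity
              linarith
  rintro ⟨C, hC⟩
  have hb : ∀ k, Z * (1 / q) ^ k ≤ C := fun k => (main k).2.2.trans (hC ⟨_, rfl⟩)
  obtain ⟨k, hk⟩ := pow_unbounded_of_one_lt (C / Z) (show 1 < 1 / q by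
    rw [lt_div_iff₀ hq0]; linarith)
  have := hb k
  rw [div_lt_iff₀ hZ0] at hk
  linarith

end Pool.Agent.Results.MP_1cbbe5_an.Unbounded
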